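import Pool.Agent.Y272.LC.Stm

/-!
Project LC: inverse branches in the slit plane.
-/

set_option autoImplicit false

open Complex Filter Topology Metric Set MeasureTheory

namespace Pool.Agent.Y545.LC

open Pool.Agent.H712R2 Pool.Agent.H713R2 Pool.Agent.H713R2.AR Pool.Agent.W677.Mar
  Pool.Agent.Y272.TY Pool.Agent.Y272.LC

attribute [local irreducible] Pool.Agent.H713R2.AR.green

lemma zt_re (s t : ℝ) : (zt s t).re = s := by
  simp [zt]

lemma zt_im (s t : ℝ) : (zt s t).im = 2 * Real.pi * t := by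
  simp [zt]

lemma zt_cont : Continuous (fun q : ℝ × ℝ => zt q.1 q.2) := by
  unfold zt
  fun_prop

/-- equality of two points of the half plane modulo the period -/
lemma zt_eq {s t s' t' : ℝ} {k : ℤ} (h : zt s t = zt s' t' + k * (((2 * Real.pi : ℝ) : ℂ) * I)) :
    s = s' ∧ t = t' + k := by
  constructor
  · have h1 := congrArg Complex.re h
    simpa [zt] using h1
  · have h1 := congrArg Complex.im h
    have h2 : (zt s' t' + k * (((2 * Real.pi : ℝ) : ℂ) * I)).im =
        2 * Real.pi * t' + k * (2 * Real.pi) := by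
      simp [zt]
    rw [h2, zt_im] at h1
    have hp := Real.pi_pos
    have h3 : 2 * Real.pi * (t - (t' + k)) = 0 := by linarith
    rcases mul_eq_zero.1 h3 with h4 | h4
    · exfalso; linarith
    · linarith

section
variable {d : ℕ} {Φ : ℂ → ℂ → ℂ}

lemma per_nat (hB : IsBott d Φ) (c : ℂ) {s : ℝ} (hs : green d c 0 < s) (t : ℝ) (n : ℕ) :
    Φ c (zt s (t + n)) = Φ c (zt s t) := by
  induction n with
  | zero => simp
  | succ n ih =>
    rw [← ih]
    have h1 := hB.per c (zt s (t + n)) (by rwa [zt_re])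
    rw [← h1]
    congr 1
    unfold zt
    push_cast
    ring

lemma per_int (hB : IsBott d Φ) (c : ℂ) {s : ℝ} (hs : green d c 0 < s) (t : ℝ) (n : ℤ) :
    Φ c (zt s (t + n)) = Φ c (zt s t) := by
  obtain ⟨m, rfl | rfl⟩ := n.eq_nat_or_neg
  · exact_mod_cast per_nat hB c hs t m
  · have h := per_nat hB c hs (t + ((-(m : ℤ) : ℤ) : ℝ)) m
    rw [← h]
    congr 2
    push_cast
    ring

lemma inj_zt (hB : IsBott d Φ) (c : ℂ) {s s' t t' : ℝ} (hs : green d c 0 < s)
    (hs' : green d c 0 < s') (h : Φ c (zt s t) = Φ c (zt s' t')) :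
    ∃ k : ℤ, s = s' ∧ t = t' + k := by
  obtain ⟨k, hk⟩ := hB.inj c (zt s t) (zt s' t') (by rwa [zt_re]) (by rwa [zt_re]) h
  exact ⟨k, zt_eq hk⟩

lemma map_zt (hd : 2 ≤ d) (hB : IsBott d Φ) (c : ℂ) {s t : ℝ} (hs : green d c 0 < s / d) :
    Φ c (zt (s / d) (t / d)) ^ d + c = Φ c (zt s t) := by
  have h := hB.map c (zt (s / d) (t / d)) (by rwa [zt_re])
  have hd0 : (d : ℂ) ≠ 0 := by
    have : d ≠ 0 := by omega
    exact_mod_cast this
  have e : (d : ℂ) * zt (s / d) (t / d) = zt s t := by
    unfold zt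
    push_cast
    field_simp
  rw [e] at h
  exact h

lemma cont_zt (hB : IsBott d Φ) (c : ℂ) :
    ContinuousOn (fun q : ℝ × ℝ => Φ c (zt q.1 q.2)) {q | green d c 0 < q.1} := by
  have h1 : ContinuousOn (fun q : ℝ × ℝ => ((c, zt q.1 q.2) : ℂ × ℂ)) {q | green d c 0 < q.1} :=
    (continuous_const.prodMk zt_cont).continuousOn
  refine (hB.cont.comp h1 ?_ : _)
  intro q hq
  change green d c 0 < (zt q.1 q.2).re
  rwa [zt_re]

/-- a continuous function on a preconnected set with values in the roots of unity is constant -/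
lemma root_const {X : Type*} [TopologicalSpace X] {S : Set X} (hS : IsPreconnected S) {f : X → ℂ}
    (hf : ContinuousOn f S) (hd : 2 ≤ d) (h1 : ∀ x ∈ S, f x ^ d = 1) {x y : X} (hx : x ∈ S)
    (hy : y ∈ S) : f x = f y := by
  have hfin : {z : ℂ | z ^ d = 1}.Finite := by
    have : {z : ℂ | z ^ d = 1} ⊆ ((Polynomial.nthRootsFinset d (1 : ℂ) : Finset ℂ) : Set ℂ) := by
      intro z hz
      rw [Finset.mem_coe, Polynomial.mem_nthRootsFinset (by omega)]
      exact hz
    exact (Finset.finite_toSet _).subset this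
  haveI : Finite {z : ℂ | z ^ d = 1} := hfin.to_subtype
  have hdis : IsDiscrete {z : ℂ | z ^ d = 1} :=
    isDiscrete_iff_discreteTopology.2 inferInstance
  exact hS.constant_of_mapsTo hdis hf (fun x hx => h1 x hx) hx hy

end

theorem t (hG : St_Grn) (hS : St_Slit) : St_Br := by
  intro d Φ hd hB c θ G hE
  have hd0 : d ≠ 0 := by omega
  have hdR : (2 : ℝ) ≤ d := by exact_mod_cast hd
  have hdpos : (0 : ℝ) < d := by linarith
  have hdC : (d : ℂ) ≠ 0 := by exact_mod_cast hd0
  have hG0 := hE.G0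
  have hGd : G / d < G := by
    rw [div_lt_iff₀ hdpos]
    nlinarith
  have hcr : green d c 0 = G / d := hE.crit
  have hg2 : green d c 0 < 2 * G / d := by
    rw [hcr]
    exact div_lt_div_of_pos_right (by linarith) hdpos
  have hg3 : green d c 0 < 2 * G := by
    rw [hcr]; linarith
  have hgs : ∀ s : ℝ, G ≤ s → green d c 0 < s := fun s hs => by rw [hcr]; linarith
  have hgsd : ∀ s : ℝ, G < s → green d c 0 < s / d := fun s hs => by
    rw [hcr]
    exact div_lt_div_of_pos_right hs hdpos
  -- the slit as a curve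
  set p : ℝ → ℂ := fun s => Φ c (zt (G + s) θ) with hp
  have hpc : ContinuousOn p (Ici 0) := by
    have h1 := cont_zt hB c
    have h2 : ContinuousOn (fun s : ℝ => ((G + s, θ) : ℝ × ℝ)) (Ici 0) := by fun_prop
    refine (h1.comp h2 ?_ : _)
    intro s hs
    change green d c 0 < G + s
    have : (0 : ℝ) ≤ s := hs
    exact hgs _ (by linarith)
  have hcont : Continuous (fun z : ℂ => green d c z) := by
    have h1 := (hG d hd).1
    have h2 : Continuous (fun z : ℂ => ((c, z) : ℂ × ℂ)) := by fun_prop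
    exact h1.comp h2
  have hpt : Tendsto (fun s => ‖p s‖) atTop atTop := by
    rw [Filter.tendsto_atTop]
    intro R
    obtain ⟨B, hBd⟩ := (isCompact_closedBall (0 : ℂ) R).bddAbove_image hcont.continuousOn
    filter_upwards [eventually_gt_atTop (max 0 (B - G))] with s hs
    by_contra hlt
    push Not at hlt
    have hs0 : 0 < s := lt_of_le_of_lt (le_max_left _ _) hs
    have hsB : B - G < s := lt_of_le_of_lt (le_max_right _ _) hs
    have h1 : green d c (p s) ≤ B := by
      apply hBd
      refine ⟨p s, ?_, rfl⟩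
      rw [mem_closedBall, dist_zero_right]
      exact hlt.le
    have h2 : green d c (p s) = G + s := by
      have h3 := hB.grn c (zt (G + s) θ) (by
        rw [zt_re]
        exact hgs _ (by linarith))
      rw [zt_re] at h3
      exact h3
    linarith
  have hpS : p '' Ici 0 = Sl Φ c θ G := by
    ext z
    constructor
    · rintro ⟨s, hs, rfl⟩
      have hs' : (0 : ℝ) ≤ s := hs
      exact ⟨G + s, by linarith, rfl⟩
    · rintro ⟨s, hs, rfl⟩
      refine ⟨s - G, ?_, ?_⟩
      · change (0 : ℝ) ≤ s - G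
        linarith
      · simp only [hp]
        congr 2
        ring
  obtain ⟨hcl, L, hL1, hL2⟩ := hS p hpc hpt
  rw [hpS] at hcl hL1 hL2
  have hp0 : p 0 = c := by
    simp only [hp, add_zero]
    exact hE.val
  rw [hp0] at hL2
  refine ⟨hcl, ?_⟩
  have hcS : c ∈ Sl Φ c θ G := ⟨G, le_refl _, hE.val.symm⟩
  -- points off the slit
  have hoff : ∀ (s t : ℝ), green d c 0 < s → (∀ k : ℤ, t ≠ θ + k) →
      Φ c (zt s t) ∉ Sl Φ c θ G := by
    rintro s t hs ht ⟨s', hs', h⟩
    obtain ⟨k, _, hk⟩ := inj_zt hB c hs (hgs s' hs') h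
    exact ht k hk
  have hoff2 : ∀ (j : ℤ) (s t : ℝ), green d c 0 < s → θ + j < t → t < θ + j + 1 →
      Φ c (zt s t) ∉ Sl Φ c θ G := by
    intro j s t hs h1 h2
    apply hoff s t hs
    intro k hk
    rw [hk] at h1 h2
    have h3 : j < k := by
      have : (j : ℝ) < k := by linarith
      exact_mod_cast this
    have h4 : k < j + 1 := by
      have : (k : ℝ) < ((j + 1 : ℤ) : ℝ) := by push_cast; linarith
      exact_mod_cast this
    omega
  -- base points
  set w : ℂ := Φ c (zt (2 * G) (θ + 1 / 2)) with hw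
  have hwS : w ∉ Sl Φ c θ G := hoff2 0 _ _ hg3 (by push_cast; linarith) (by push_cast; linarith)
  set v : ℤ → ℂ := fun j => Φ c (zt (2 * G / d) ((θ + 1 / 2 + j) / d)) with hv
  have hvw : ∀ j : ℤ, v j ^ d + c = w := by
    intro j
    simp only [hv]
    rw [map_zt hd hB c hg2, per_int hB c hg3]
  set E : ℂ := Complex.exp (-(L w) / d) with hEdef
  have hE0 : E ≠ 0 := Complex.exp_ne_zero _
  have hexpd : ∀ z : ℂ, Complex.exp (z / d) ^ d = Complex.exp z := by
    intro z
    rw [← Complex.exp_nat_mul]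
    congr 1
    field_simp
  have hexpL : ∀ z ∉ Sl Φ c θ G, Complex.exp (L z / d) ^ d = z - c := by
    intro z hz
    rw [hexpd]
    exact hL2 z hz
  have hωd : ∀ j : ℤ, (v j * E) ^ d = 1 := by
    intro j
    rw [mul_pow, hEdef, hexpd, Complex.exp_neg, hL2 w hwS, ← hvw j, add_sub_cancel_right]
    apply mul_inv_cancel₀
    intro h0
    apply hwS
    rw [← hvw j, h0, zero_add]
    exact hcS
  set g : ℤ → ℂ → ℂ := fun j z => v j * E * Complex.exp (L z / d) with hg
  have hinv : ∀ j, ∀ z ∉ Sl Φ c θ G, fc d c (g j z) = z := by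
    intro j z hz
    change (v j * E * Complex.exp (L z / d)) ^ d + c = z
    rw [mul_pow, hωd, one_mul, hexpL z hz]
    ring
  have hvinj : ∀ i j : ℤ, v i = v j → (d : ℤ) ∣ i - j := by
    intro i j h
    obtain ⟨k, _, hk⟩ := inj_zt hB c hg2 hg2 h
    refine ⟨k, ?_⟩
    have h1 : (i : ℝ) - j = d * k := by
      field_simp at hk
      linarith
    exact_mod_cast h1
  refine ⟨g, ?_, hinv, ?_, ?_, ?_, ?_⟩
  · -- holomorphic
    intro j
    simp only [hg]
    exact (((hL1.div_const _).cexp).const_mul _)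
  · -- rays
    intro j s t hs ht1 ht2
    have hconn : IsPreconnected (Ioi G ×ˢ Ioo (θ + j) (θ + j + 1) : Set (ℝ × ℝ)) :=
      isPreconnected_Ioi.prod isPreconnected_Ioo
    have hne : ∀ q ∈ (Ioi G ×ˢ Ioo (θ + j) (θ + j + 1) : Set (ℝ × ℝ)),
        Φ c (zt (q.1 / d) (q.2 / d)) ≠ 0 := by
      rintro ⟨s', t'⟩ ⟨h1, h2, h3⟩ h0
      have h4 := map_zt hd hB c (s := s') (t := t') (hgsd s' h1)
      have h5 := hoff2 j s' t' (hgs s' (le_of_lt h1)) h2 h3
      apply h5
      rw [← h4]
      simp only at h0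
      rw [h0, zero_pow hd0, zero_add]
      exact hcS
    have hmaps : MapsTo (fun q : ℝ × ℝ => Φ c (zt q.1 q.2))
        (Ioi G ×ˢ Ioo (θ + j) (θ + j + 1)) (Sl Φ c θ G)ᶜ := by
      rintro ⟨s', t'⟩ ⟨h1, h2, h3⟩
      exact hoff2 j s' t' (hgs s' (le_of_lt h1)) h2 h3
    have hc1 : ContinuousOn (fun q : ℝ × ℝ => Φ c (zt q.1 q.2))
        (Ioi G ×ˢ Ioo (θ + j) (θ + j + 1)) := by
      refine (cont_zt hB c).mono ?_
      rintro ⟨s', t'⟩ ⟨h1, _⟩
      exact hgs s' (le_of_lt h1)
    have hc2 : ContinuousOn (fun q : ℝ × ℝ => Φ c (zt (q.1 / d) (q.2 / d)))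
        (Ioi G ×ˢ Ioo (θ + j) (θ + j + 1)) := by
      have h2 : ContinuousOn (fun q : ℝ × ℝ => ((q.1 / d, q.2 / d) : ℝ × ℝ))
        (Ioi G ×ˢ Ioo (θ + j) (θ + j + 1)) := by fun_prop
      refine ((cont_zt hB c).comp h2 ?_ : _)
      rintro ⟨s', t'⟩ ⟨h1, _⟩
      exact hgsd s' h1
    have hc3 : ContinuousOn (fun q : ℝ × ℝ => g j (Φ c (zt q.1 q.2)))
        (Ioi G ×ˢ Ioo (θ + j) (θ + j + 1)) := by
      have h2 : ContinuousOn (g j) (Sl Φ c θ G)ᶜ := by
        simp only [hg]
        exact (((hL1.div_const _).cexp).const_mul _).continuousOn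
      exact h2.comp hc1 hmaps
    have hq : ∀ q ∈ (Ioi G ×ˢ Ioo (θ + j) (θ + j + 1) : Set (ℝ × ℝ)),
        (g j (Φ c (zt q.1 q.2)) / Φ c (zt (q.1 / d) (q.2 / d))) ^ d = 1 := by
      rintro ⟨s', t'⟩ hq
      have h4 := map_zt hd hB c (s := s') (t := t') (hgsd s' hq.1)
      have h5 := hinv j _ (hmaps hq)
      have h6 : g j (Φ c (zt s' t')) ^ d + c = Φ c (zt s' t') := h5
      have h7 : g j (Φ c (zt s' t')) ^ d = Φ c (zt (s' / d) (t' / d)) ^ d := by
        apply add_right_cancel (b := c)
        rw [h6, h4]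
      rw [div_pow]
      simp only
      rw [h7]
      exact div_self (pow_ne_zero d (hne _ hq))
    have hbase : ((2 * G, θ + 1 / 2 + j) : ℝ × ℝ) ∈
        (Ioi G ×ˢ Ioo (θ + j) (θ + j + 1) : Set (ℝ × ℝ)) := by
      refine ⟨?_, ?_, ?_⟩
      · change G < 2 * G
        linarith
      · change θ + j < θ + 1 / 2 + j
        linarith
      · change θ + 1 / 2 + j < θ + j + 1
        linarith
    have hst : ((s, t) : ℝ × ℝ) ∈ (Ioi G ×ˢ Ioo (θ + j) (θ + j + 1) : Set (ℝ × ℝ)) :=
      ⟨hs, ht1, ht2⟩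
    have hq3 : ContinuousOn (fun q : ℝ × ℝ => g j (Φ c (zt q.1 q.2)) /
        Φ c (zt (q.1 / d) (q.2 / d))) (Ioi G ×ˢ Ioo (θ + j) (θ + j + 1)) := hc3.div hc2 hne
    have hkey := root_const hconn hq3 hd hq hst hbase
    beta_reduce at hkey
    dsimp only [Prod.fst, Prod.snd] at hkey
    have hb : g j (Φ c (zt (2 * G) (θ + 1 / 2 + j))) = v j := by
      rw [per_int hB c hg3, ← hw]
      simp only [hg]
      rw [mul_assoc, hEdef, ← Complex.exp_add]
      have : -(L w) / (d : ℂ) + L w / d = 0 := by ring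
      rw [this, Complex.exp_zero, mul_one]
    have hvj : Φ c (zt (2 * G / d) ((θ + 1 / 2 + j) / d)) = v j := rfl
    have hvne : v j ≠ 0 := hne _ hbase
    rw [hb, hvj, div_self hvne] at hkey
    exact (div_eq_one_iff_eq (hne _ hst)).1 hkey
  · -- all preimages
    intro z hz
    have hz1 : z ^ d = Complex.exp (L (fc d c z) / d) ^ d := by
      rw [hexpL _ hz]
      change z ^ d = z ^ d + c - c
      ring
    have hne : Complex.exp (L (fc d c z) / d) ≠ 0 := Complex.exp_ne_zero _
    set r : ℂ := z / Complex.exp (L (fc d c z) / d) with hr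
    have hrd : r ^ d = 1 := by
      rw [hr, div_pow, hz1]
      exact div_self (pow_ne_zero d hne)
    have hzr : z = r * Complex.exp (L (fc d c z) / d) := by
      rw [hr, div_mul_cancel₀ _ hne]
    classical
    have himg : ((Finset.range d).image fun n : ℕ => v n * E) =
        Polynomial.nthRootsFinset d (1 : ℂ) := by
      apply Finset.eq_of_subset_of_card_le
      · intro x hx
        obtain ⟨n, _, rfl⟩ := Finset.mem_image.1 hx
        rw [Polynomial.mem_nthRootsFinset (by omega)]
        exact hωd n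
      · rw [Finset.card_image_of_injOn, Finset.card_range]
        · refine (Multiset.toFinset_card_le _).trans ?_
          exact Polynomial.card_nthRoots d 1
        · intro n hn m hm hnm
          have h1 : v n = v m := mul_right_cancel₀ hE0 hnm
          obtain ⟨k, hk⟩ := hvinj _ _ h1
          have hn' : n < d := Finset.mem_range.1 (Finset.mem_coe.1 hn)
          have hm' : m < d := Finset.mem_range.1 (Finset.mem_coe.1 hm)
          have h2 : k = 0 := by
            by_contra hk0
            rcases lt_or_gt_of_ne hk0 with h3 | h3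
            · have : (d : ℤ) * k ≤ -d := by nlinarith
              omega
            · have : (d : ℤ) ≤ (d : ℤ) * k := by nlinarith
              omega
          rw [h2, mul_zero] at hk
          omega
    have hrm : r ∈ (Finset.range d).image fun n : ℕ => v n * E := by
      rw [himg, Polynomial.mem_nthRootsFinset (by omega)]
      exact hrd
    obtain ⟨n, hn, hnr⟩ := Finset.mem_image.1 hrm
    refine ⟨n, by positivity, by exact_mod_cast Finset.mem_range.1 hn, ?_⟩
    change v n * E * Complex.exp (L (fc d c z) / d) = z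
    rw [hnr]
    exact hzr.symm
  · -- periodicity
    intro i j hij z _
    obtain ⟨k, hk⟩ := hij
    have h1 : v i = v j := by
      simp only [hv]
      rw [← per_int hB c hg2 ((θ + 1 / 2 + j) / d) k]
      congr 2
      have : (i : ℝ) - j = d * k := by exact_mod_cast hk
      field_simp
      linarith
    simp only [hg]
    rw [h1]
  · -- disjoint images
    intro i j z hz w' hw' h
    have h1 : z = w' := by
      rw [← hinv i z hz, h, hinv j w' hw']
    subst h1
    refine ⟨?_, rfl⟩
    simp only [hg] at h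
    have h2 := mul_right_cancel₀ (Complex.exp_ne_zero _) h
    have h3 := mul_right_cancel₀ hE0 h2
    exact hvinj i j h3

end Pool.Agent.Y545.LC
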